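import Mathlib

set_option autoImplicit false

namespace Pool.Agent.Results.MP_ad0c0d_al.NotInvariant

/-- The circulant matrix with first row `a`, each row the previous one shifted to the right. -/
def cir {R : Type} {n : ℕ} (a : Fin n → R) : Matrix (Fin n) (Fin n) R :=
  Matrix.of fun i j => a (j - i)

/-- The number of `n × n` circulant matrices with determinant `x`. -/
noncomputable def cnt (R : Type) [CommRing R] (n : ℕ) (x : R) : ℕ :=
  Nat.card {a : Fin n → R // (cir a).det = x}

abbrev D := DualNumber (ZMod 2)

instance : Finite D := inferInstanceAs (Finite (ZMod 2 × ZMod 2))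

lemma cases_D (x : D) : x = 0 ∨ x = DualNumber.eps ∨ IsUnit x := by
  have h : ∀ a : ZMod 2, a = 0 ∨ a = 1 := by decide
  rcases h x.fst with h1 | h1
  · rcases h x.snd with h2 | h2
    · left; ext <;> simp [h1, h2]
    · right; left; ext <;> simp [h1, h2]
  · right; right
    rw [TrivSqZeroExt.isUnit_iff_isUnit_fst, h1]; exact isUnit_one

lemma le_eps {I : Ideal D} (h : I ≠ ⊤) : I ≤ Ideal.span {DualNumber.eps} := by
  intro x hx
  rcases cases_D x with rfl | rfl | hu
  · exact zero_mem _
  · exact Ideal.subset_span rfl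
  · exact absurd (Ideal.eq_top_of_isUnit_mem I hx hu) h

/-- A finite commutative chain ring in which two associated elements are attained by different
numbers of circulant matrices. -/
theorem result :
    ∃ (R : Type) (_ : CommRing R) (_ : Finite R) (_ : Nontrivial R),
      (∀ I J : Ideal R, I ≤ J ∨ J ≤ I) ∧
      ∃ γ : R, (Ideal.span {γ}).IsMaximal ∧
        ∃ (n : ℕ) (b : Rˣ) (s : ℕ), 0 < n ∧ s ≤ nilpotencyClass γ ∧
          cnt R n (γ ^ s) ≠ cnt R n ((b : R) * γ ^ s) := by
  have hne : Ideal.span {(DualNumber.eps : D)} ≠ ⊤ := by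
    rw [Ne, Ideal.span_singleton_eq_top, TrivSqZeroExt.isUnit_iff_isUnit_fst]
    simp
  have hb : IsUnit (1 + DualNumber.eps : D) := by
    rw [TrivSqZeroExt.isUnit_iff_isUnit_fst]; simp
  refine ⟨D, inferInstance, inferInstance, inferInstance, fun I J => ?_, DualNumber.eps,
    ⟨⟨hne, fun J hJ => ?_⟩⟩, 2, hb.unit, 0, two_pos, Nat.zero_le _, ?_⟩
  · by_cases hJ : J = ⊤
    · left; rw [hJ]; exact le_top
    by_cases hI : I = ⊤
    · right; rw [hI]; exact le_top
    by_cases h : DualNumber.eps ∈ J
    · left; exact (le_eps hI).trans ((Ideal.span_singleton_le_iff_mem _).2 h)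
    · right
      intro x hx
      rcases cases_D x with rfl | rfl | hu
      · exact zero_mem _
      · exact absurd hx h
      · exact absurd (Ideal.eq_top_of_isUnit_mem J hx hu) hJ
  · by_contra h
    exact absurd hJ (not_lt_of_ge (le_eps h))
  · have h1 : cnt D 2 ((hb.unit : D) * DualNumber.eps ^ 0) = 0 := by
      have : IsEmpty {a : Fin 2 → D // (cir a).det = (hb.unit : D) * DualNumber.eps ^ 0} := ⟨by
        rintro ⟨a, ha⟩
        have h2 := congrArg TrivSqZeroExt.snd ha
        have e : (-1 : Fin 2) = 1 := rfl
        simp [cir, Matrix.det_fin_two, e] at h2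
        revert h2
        generalize (a 0).fst = p
        generalize (a 0).snd = q
        generalize (a 1).fst = r
        generalize (a 1).snd = t
        revert p q r t
        decide⟩
      exact Nat.card_of_isEmpty
    rw [h1]
    have : Nonempty {a : Fin 2 → D // (cir a).det = DualNumber.eps ^ 0} :=
      ⟨⟨![1, 0], by simp [cir, Matrix.det_fin_two]⟩⟩
    exact Nat.card_pos.ne'

end Pool.Agent.Results.MP_ad0c0d_al.NotInvariant
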